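import Mathlib
import Pool.Agent.Helper39.Simp.Defs
import Pool.Agent.Helper39.Simp.Check17

/-!
# Seventeen neighborly 4-simplices in `ℝ^4`
-/

namespace Pool.Agent.Results.MP_7876a1_co.Seventeen

open Pool.Agent.Helper39.Simp

/-- There is a neighborly family of exactly `17 > 2 ^ 4` four-dimensional simplices in `ℝ^4`. -/
theorem result : ∃ F : Finset (Set (E 4)), Neighborly 4 F ∧ F.card = 17 :=
  Data17.seventeen

end Pool.Agent.Results.MP_7876a1_co.Seventeen
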